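import Pool.Agent.Lib_helper25.SUN.Final

set_option autoImplicit false

namespace Pool.Agent.Results.MP_1a28e9_nt.LogarithmicGaps

/-- `D m n`: the determinant of the `n × n` integer matrix with entry `1` at `(i, j)` if
`i ^ (2 ^ m) + j ^ (2 ^ m)` is prime and `0` otherwise, `1 ≤ i, j ≤ n`
(an index `i : Fin n` stands for the integer `i + 1`). -/
def D (m n : ℕ) : ℤ :=
  (Matrix.of fun i j : Fin n =>
    if ((i.val + 1) ^ (2 ^ m) + (j.val + 1) ^ (2 ^ m)).Prime then (1 : ℤ) else 0).det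

/-- For all large `x` and every prime `ℓ` the interval `(x, 3 x log x loglog x]` contains an even
`n` (`e = 0`) and an odd `n` (`e = 1`) such that `ℓ` does not divide `D(0, n)`; the bound `x₀` does
not depend on `ℓ`. -/
theorem result : ∃ x₀ : ℝ, ∀ x : ℝ, x₀ ≤ x → ∀ ℓ : ℕ, ℓ.Prime → ∀ e : ℕ, e < 2 →
    ∃ n : ℕ, n % 2 = e ∧ x < (n : ℝ) ∧
      (n : ℝ) ≤ 3 * x * Real.log x * Real.log (Real.log x) ∧
      ¬ (ℓ : ℤ) ∣ D 0 n :=
  Pool.Agent.Lib_helper25.SUN.final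

end Pool.Agent.Results.MP_1a28e9_nt.LogarithmicGaps
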